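import Pool.Agent.Helper68.LM2.St

/-! # LM2 module VEC: vector valued inequality for the averages in the first variable -/

set_option autoImplicit false

open MeasureTheory Set Filter Topology
open scoped ENNReal RealInnerProductSpace

namespace Pool.Agent.Helper93.LM2

open Pool.Agent.Helper68.LM2 Pool.Agent.Helper68.LM

/-- Cauchy-Schwarz with the constant function. -/
theorem cs_one {α : Type*} [MeasurableSpace α] (μ : Measure α) (f : α → ℝ≥0∞) (hf : Measurable f) :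
    (∫⁻ x, f x ∂μ) ^ 2 ≤ μ univ * ∫⁻ x, f x ^ 2 ∂μ := by
  have h := ENNReal.lintegral_mul_le_Lp_mul_Lq μ (p := 2) (q := 2) (Real.holderConjugate_iff.2 ⟨by norm_num, by norm_num⟩)
    (f := f) (g := fun _ => 1) hf.aemeasurable aemeasurable_const
  have e1 : ∫⁻ x, (f * (fun _ => 1) : α → ℝ≥0∞) x ∂μ = ∫⁻ x, f x ∂μ := by
    apply lintegral_congr; intro x; simp
  rw [e1] at h
  have e2 : ∫⁻ _ : α, (1 : ℝ≥0∞) ^ (2 : ℝ) ∂μ = μ univ := by simp
  rw [e2] at h
  calc (∫⁻ x, f x ∂μ) ^ 2 ≤ ((∫⁻ x, f x ^ (2 : ℝ) ∂μ) ^ (1 / (2 : ℝ)) * μ univ ^ (1 / (2 : ℝ))) ^ 2 :=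
        pow_le_pow_left' h 2
    _ = μ univ * ∫⁻ x, f x ^ 2 ∂μ := by
        rw [mul_pow]
        have e3 : ∀ a : ℝ≥0∞, (a ^ (1 / (2 : ℝ))) ^ 2 = a := by
          intro a
          rw [← ENNReal.rpow_natCast, ← ENNReal.rpow_mul]; norm_num
        rw [e3, e3, mul_comm]
        congr 1
        apply lintegral_congr; intro x
        rw [← ENNReal.rpow_natCast]; norm_num

/-- exchange of the order and translation -/
theorem swapn (ρ : Measure ℝ) [IsFiniteMeasure ρ] (u w : ℝ × ℝ → ℝ≥0∞) (hu : Measurable u) (hw : Measurable w)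
    (c : ℝ) : ∫⁻ z, (∫⁻ s, u (z.1 - c * s, z.2) ∂ρ) * w z = ∫⁻ z, u z * ∫⁻ s, w (z.1 + c * s, z.2) ∂ρ := by
  have m1 : Measurable (fun q : (ℝ × ℝ) × ℝ => u (q.1.1 - c * q.2, q.1.2)) := by fun_prop
  have m2 : Measurable (fun q : (ℝ × ℝ) × ℝ => w (q.1.1 + c * q.2, q.1.2)) := by fun_prop
  calc ∫⁻ z, (∫⁻ s, u (z.1 - c * s, z.2) ∂ρ) * w z
      = ∫⁻ z : ℝ × ℝ, ∫⁻ s, u (z.1 - c * s, z.2) * w z ∂ρ := by
        apply lintegral_congr; intro z
        rw [lintegral_mul_const]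
        exact m1.comp (measurable_const.prodMk measurable_id : Measurable (fun s : ℝ => (z, s)))
    _ = ∫⁻ s, (∫⁻ z : ℝ × ℝ, u (z.1 - c * s, z.2) * w z) ∂ρ := by
        apply lintegral_lintegral_swap
        exact (m1.mul (hw.comp measurable_fst)).aemeasurable
    _ = ∫⁻ s, (∫⁻ z : ℝ × ℝ, u z * w (z.1 + c * s, z.2)) ∂ρ := by
        apply lintegral_congr; intro s
        rw [← lintegral_sub_right_eq_self (fun z : ℝ × ℝ => u z * w (z.1 + c * s, z.2)) (c * s, 0)]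
        apply lintegral_congr; intro z
        have e : z - (c * s, 0) = (z.1 - c * s, z.2) := by ext <;> simp
        rw [e]
        simp
    _ = ∫⁻ z : ℝ × ℝ, ∫⁻ s, u z * w (z.1 + c * s, z.2) ∂ρ := by
        symm
        apply lintegral_lintegral_swap
        exact ((hu.comp measurable_fst).mul m2).aemeasurable
    _ = ∫⁻ z, u z * ∫⁻ s, w (z.1 + c * s, z.2) ∂ρ := by
        apply lintegral_congr; intro z
        rw [lintegral_const_mul]
        exact m2.comp (measurable_const.prodMk measurable_id : Measurable (fun s : ℝ => (z, s)))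

theorem tele (τ : ℕ → ℝ) (j N : ℕ) (h : j ≤ N) : ∑ n ∈ Finset.Ico j N, (2 * (τ n - τ (n + 1))) = 2 * (τ j - τ N) := by
  induction N, h using Nat.le_induction with
  | base => simp
  | succ N hN ih => rw [Finset.sum_Ico_succ_top hN, ih]; ring

/-- finite sums of squares of functions in BR are bounded with bounded support -/
theorem bdd_sum (b : ℕ → ℝ × ℝ → ℝ) (hb : ∀ j, BR (b j)) (N : ℕ) :
    ∃ K : ℝ, ∀ z, (∑ j ∈ Finset.range N, ‖b j z‖ₑ ^ 2 ≤ ENNReal.ofReal K) ∧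
      (K < ‖z‖ → ∑ j ∈ Finset.range N, ‖b j z‖ₑ ^ 2 = 0) := by
  induction N with
  | zero => exact ⟨0, fun z => by simp⟩
  | succ N ih =>
    obtain ⟨K, hK⟩ := ih
    obtain ⟨-, L, hL1, hL2⟩ := hb N
    have hL0 : 0 ≤ L := (abs_nonneg _).trans (hL1 0)
    refine ⟨max K 0 + (L ^ 2 + L), fun z => ⟨?_, fun hz => ?_⟩⟩
    · rw [Finset.sum_range_succ, ENNReal.ofReal_add (le_max_right _ _) (by positivity)]
      apply add_le_add
      · exact (hK z).1.trans (ENNReal.ofReal_le_ofReal (le_max_left _ _))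
      · rw [Real.enorm_eq_ofReal_abs, ← ENNReal.ofReal_pow (abs_nonneg _)]
        apply ENNReal.ofReal_le_ofReal
        have : |b N z| ^ 2 ≤ L ^ 2 := pow_le_pow_left₀ (abs_nonneg _) (hL1 z) 2
        linarith
    · rw [Finset.sum_range_succ, (hK z).2, hL2 z, enorm_zero]
      · simp
      · have h1 : (0 : ℝ) ≤ max K 0 := le_max_right _ _
        nlinarith [sq_nonneg L]
      · have h1 : K ≤ max K 0 := le_max_left _ _
        nlinarith [sq_nonneg L]

/-- cancelling -/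
theorem cancel {A D G : ℝ≥0∞} {r r' : ℝ} (hr : r.HolderConjugate r') (hA : A ≠ ∞)
    (h : A ≤ D * G ^ (1 / r) * A ^ (1 / r')) : A ≤ D ^ r * G := by
  have hr0 : 0 < r := hr.pos
  have hr0' : 0 < r' := hr.symm.pos
  by_cases hA0 : A = 0
  · rw [hA0]; exact bot_le
  have hs : 1 / r + 1 / r' = 1 := by
    have := hr.inv_add_inv_eq_one
    simpa [one_div] using this
  have e1 : A = A ^ (1 / r) * A ^ (1 / r') := by
    rw [← ENNReal.rpow_add _ _ hA0 hA, hs, ENNReal.rpow_one]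
  have hc0 : A ^ (1 / r') ≠ 0 := by
    rw [Ne, ENNReal.rpow_eq_zero_iff]
    push Not
    exact ⟨fun h0 => absurd h0 hA0, fun h0 => absurd h0 hA⟩
  have hc1 : A ^ (1 / r') ≠ ∞ := ENNReal.rpow_ne_top_of_nonneg (by positivity) hA
  have h2 : A ^ (1 / r) ≤ D * G ^ (1 / r) := by
    rw [e1] at h
    have h3 : A ^ (1 / r) * A ^ (1 / r') ≤ D * G ^ (1 / r) * A ^ (1 / r') := by
      rw [← e1] at h ⊢; exact h
    exact (ENNReal.mul_le_mul_iff_left hc0 hc1).1 h3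
  calc A = (A ^ (1 / r)) ^ r := by
        rw [← ENNReal.rpow_mul, one_div, inv_mul_cancel₀ hr0.ne', ENNReal.rpow_one]
    _ ≤ (D * G ^ (1 / r)) ^ r := ENNReal.rpow_le_rpow h2 hr0.le
    _ = D ^ r * G := by
        rw [ENNReal.mul_rpow_of_nonneg _ _ hr0.le, ← ENNReal.rpow_mul, one_div, inv_mul_cancel₀ hr0.ne',
          ENNReal.rpow_one]

theorem hVEC (hEB : StEB) (hRHO : StRHO) (hHLA : StHLA) : StVEC := by
  intro p hp
  obtain ⟨r, hr⟩ : ∃ r : ℝ, r = p / 2 := ⟨_, rfl⟩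
  have hr1 : 1 < r := by rw [hr]; linarith
  obtain ⟨r', hrr⟩ : ∃ r' : ℝ, r.HolderConjugate r' := ⟨_, Real.HolderConjugate.conjExponent hr1⟩
  have hr1' : 1 < r' := hrr.symm.lt
  have hr0 : 0 < r := hrr.pos
  have hr0' : 0 < r' := hrr.symm.pos
  obtain ⟨C, hC, -, hM⟩ := hHLA r' hr1'
  obtain ⟨D, hD⟩ : ∃ D : ℝ≥0∞, D = 8 * (ENNReal.ofReal C * ENNReal.ofReal C) ^ (1 / r') := ⟨_, rfl⟩
  have hDt : D ≠ ∞ := by
    rw [hD]
    exact ENNReal.mul_ne_top (by norm_num) (ENNReal.rpow_ne_top_of_nonneg (by positivity)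
      (ENNReal.mul_ne_top ENNReal.ofReal_ne_top ENNReal.ofReal_ne_top))
  refine ⟨(D ^ r).toReal + 1, by positivity, ?_⟩
  intro τ m₀ hτ Nm k x hx
  obtain ⟨R1, -, R3, -, -, R6, -⟩ := hRHO τ m₀ hτ
  obtain ⟨hanti, hpos, hτ0, -⟩ := hτ
  have hfin : ∀ n, IsFiniteMeasure (rho τ m₀ n) := fun n => ⟨by rw [R1 n]; exact ENNReal.ofReal_lt_top⟩
  -- the functions
  obtain ⟨b, hb⟩ : ∃ b : ℕ → ℝ × ℝ → ℝ, b = fun j z => ∑ n ∈ Finset.Ico j Nm, Rh (rho τ m₀ n) k (x j) z := ⟨_, rfl⟩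
  have hbBR : ∀ j, BR (b j) := by
    intro j
    have : ∀ s : Finset ℕ, BR (fun z => ∑ n ∈ s, Rh (rho τ m₀ n) k (x j) z) := by
      intro s
      induction s using Finset.induction_on with
      | empty => exact ⟨by simpa using measurable_const, 0, by simp, by simp⟩
      | insert a s ha ih =>
        have := (hEB.2.1 _ _ (R3 a k (x j) (hx j)) ih).1
        simpa [Finset.sum_insert ha] using this
    rw [hb]; exact this _
  obtain ⟨F, hF⟩ : ∃ F : ℝ × ℝ → ℝ≥0∞, F = fun z => ∑ j ∈ Finset.range Nm, ‖b j z‖ₑ ^ 2 := ⟨_, rfl⟩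
  obtain ⟨G, hG⟩ : ∃ G : ℝ × ℝ → ℝ≥0∞,
    G = fun z => ∑ j ∈ Finset.range Nm, ENNReal.ofReal (τ j ^ 2) * ‖x j z‖ₑ ^ 2 := ⟨_, rfl⟩
  have hFm : Measurable F := by
    rw [hF]
    exact Finset.measurable_fun_sum _ (fun j _ => ((hbBR j).1.enorm.pow_const 2))
  have hxm : ∀ j, Measurable (fun z => ‖x j z‖ₑ ^ 2) := fun j => (hx j).1.enorm.pow_const 2
  have hGm : Measurable G := by
    rw [hG]
    exact Finset.measurable_fun_sum _ (fun j _ => (hxm j).const_mul _)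
  obtain ⟨A, hA⟩ : ∃ A : ℝ≥0∞, A = ∫⁻ z, F z ^ r := ⟨_, rfl⟩
  have hAt : A ≠ ∞ := by
    obtain ⟨K, hK⟩ := bdd_sum b hbBR Nm
    have h1 : A ≤ ∫⁻ z, (Metric.closedBall (0 : ℝ × ℝ) K).indicator (fun _ => ENNReal.ofReal K ^ r) z := by
      rw [hA]
      apply lintegral_mono
      intro z
      by_cases hz : z ∈ Metric.closedBall (0 : ℝ × ℝ) K
      · rw [Set.indicator_of_mem hz, hF]
        exact ENNReal.rpow_le_rpow (hK z).1 hr0.le
      · rw [Set.indicator_of_notMem hz, hF]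
        have : K < ‖z‖ := by simpa using hz
        simp only [(hK z).2 this]
        rw [ENNReal.zero_rpow_of_pos hr0]
    rw [lintegral_indicator measurableSet_closedBall, lintegral_const] at h1
    refine ne_top_of_le_ne_top (ENNReal.mul_ne_top ?_ ?_) h1
    · exact ENNReal.rpow_ne_top_of_nonneg hr0.le ENNReal.ofReal_ne_top
    · rw [Measure.restrict_apply_univ]
      exact measure_closedBall_lt_top.ne
  obtain ⟨w, hw⟩ : ∃ w : ℝ × ℝ → ℝ≥0∞, w = fun z => F z ^ (r - 1) := ⟨_, rfl⟩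
  have hwm : Measurable w := by rw [hw]; exact hFm.pow_const _
  -- pointwise bound
  have hpt : ∀ j ∈ Finset.range Nm, ∀ z : ℝ × ℝ, ‖b j z‖ₑ ^ 2 ≤ ENNReal.ofReal (2 * τ j) *
      ∑ n ∈ Finset.Ico j Nm, ∫⁻ s, ‖x j (z.1 - (2 : ℝ) ^ k * s, z.2)‖ₑ ^ 2 ∂(rho τ m₀ n) := by
    intro j hj z
    have hjN : j ≤ Nm := (Finset.mem_range.1 hj).le
    have hfm : Measurable (fun s : ℝ => ‖x j (z.1 - (2 : ℝ) ^ k * s, z.2)‖ₑ) := by
      have h1 : Measurable (fun s : ℝ => (z.1 - (2 : ℝ) ^ k * s, z.2)) := by fun_prop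
      exact ((hx j).1.comp h1).enorm
    have h1 : ‖b j z‖ₑ ≤ ∫⁻ s, ‖x j (z.1 - (2 : ℝ) ^ k * s, z.2)‖ₑ ∂(∑ n ∈ Finset.Ico j Nm, rho τ m₀ n) := by
      rw [lintegral_finset_sum_measure, hb]
      refine (enorm_sum_le _ _).trans (Finset.sum_le_sum fun n _ => ?_)
      exact enorm_integral_le_lintegral_enorm _
    have h2 : (∑ n ∈ Finset.Ico j Nm, rho τ m₀ n) univ ≤ ENNReal.ofReal (2 * τ j) := by
      rw [Measure.finset_sum_apply, Finset.sum_congr rfl (fun n _ => R1 n), ← ENNReal.ofReal_sum_of_nonneg]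
      · apply ENNReal.ofReal_le_ofReal
        rw [tele τ j Nm hjN]
        have := hpos Nm
        linarith
      · intro n _
        have := hanti (Nat.lt_succ_self n)
        simp only [Nat.succ_eq_add_one] at this
        linarith
    calc ‖b j z‖ₑ ^ 2 ≤ (∫⁻ s, ‖x j (z.1 - (2 : ℝ) ^ k * s, z.2)‖ₑ ∂(∑ n ∈ Finset.Ico j Nm, rho τ m₀ n)) ^ 2 :=
          pow_le_pow_left' h1 2
      _ ≤ _ := cs_one _ _ hfm
      _ ≤ _ := by
          rw [lintegral_finset_sum_measure]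
          exact mul_le_mul_left h2 _
  -- the main chain
  have main : A ≤ 8 * ∫⁻ z, G z * M1 (M1 w) z := by
    have e1 : A = ∫⁻ z, F z * w z := by
      rw [hA]
      apply lintegral_congr; intro z
      rw [hw]
      show F z ^ r = F z * F z ^ (r - 1)
      have h8 : F z ^ r = F z ^ (1 + (r - 1)) := by congr 1; ring
      rw [h8, ENNReal.rpow_add_of_nonneg _ _ (by norm_num) (by linarith), ENNReal.rpow_one]
    have e2 : ∀ z, F z * w z ≤ ∑ j ∈ Finset.range Nm, ∑ n ∈ Finset.Ico j Nm, ENNReal.ofReal (2 * τ j) *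
        ((∫⁻ s, ‖x j (z.1 - (2 : ℝ) ^ k * s, z.2)‖ₑ ^ 2 ∂(rho τ m₀ n)) * w z) := by
      intro z
      rw [hF, Finset.sum_mul]
      apply Finset.sum_le_sum
      intro j hj
      refine (mul_le_mul_left (hpt j hj z) _).trans (le_of_eq ?_)
      rw [mul_assoc, Finset.sum_mul, Finset.mul_sum]
    have hmm : ∀ j n, Measurable (fun z : ℝ × ℝ => ENNReal.ofReal (2 * τ j) *
        ((∫⁻ s, ‖x j (z.1 - (2 : ℝ) ^ k * s, z.2)‖ₑ ^ 2 ∂(rho τ m₀ n)) * w z)) := by
      intro j n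
      have := hfin n
      have m1 : Measurable (fun q : (ℝ × ℝ) × ℝ => ‖x j (q.1.1 - (2 : ℝ) ^ k * q.2, q.1.2)‖ₑ ^ 2) := by
        have h1 : Measurable (fun q : (ℝ × ℝ) × ℝ => (q.1.1 - (2 : ℝ) ^ k * q.2, q.1.2)) := by fun_prop
        exact (hxm j).comp h1
      exact (m1.lintegral_prod_right'.mul hwm).const_mul _
    rw [e1]
    refine (lintegral_mono e2).trans ?_
    rw [lintegral_finset_sum _ (fun j _ => Finset.measurable_fun_sum _ (fun n _ => hmm j n))]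
    have e3 : ∀ j ∈ Finset.range Nm, ∫⁻ z, ∑ n ∈ Finset.Ico j Nm, ENNReal.ofReal (2 * τ j) *
        ((∫⁻ s, ‖x j (z.1 - (2 : ℝ) ^ k * s, z.2)‖ₑ ^ 2 ∂(rho τ m₀ n)) * w z) ≤
        8 * ∫⁻ z, (ENNReal.ofReal (τ j ^ 2) * ‖x j z‖ₑ ^ 2) * M1 (M1 w) z := by
      intro j _
      rw [lintegral_finset_sum _ (fun n _ => hmm j n)]
      have e4 : ∀ n ∈ Finset.Ico j Nm, ∫⁻ z : ℝ × ℝ, ENNReal.ofReal (2 * τ j) *
        ((∫⁻ s, ‖x j (z.1 - (2 : ℝ) ^ k * s, z.2)‖ₑ ^ 2 ∂(rho τ m₀ n)) * w z) =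
        ∫⁻ z : ℝ × ℝ, ENNReal.ofReal (2 * τ j) *
          (‖x j z‖ₑ ^ 2 * ∫⁻ s, w (z.1 + (2 : ℝ) ^ k * s, z.2) ∂(rho τ m₀ n)) := by
        intro n _
        have := hfin n
        have h5 : ∀ f : ℝ × ℝ → ℝ≥0∞, ∫⁻ z, ENNReal.ofReal (2 * τ j) * f z =
            ENNReal.ofReal (2 * τ j) * ∫⁻ z, f z := fun f =>
          lintegral_const_mul' _ _ ENNReal.ofReal_ne_top
        rw [h5, h5, swapn (rho τ m₀ n) (fun z => ‖x j z‖ₑ ^ 2) w (hxm j) hwm]
      rw [Finset.sum_congr rfl e4, ← lintegral_finset_sum]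
      · rw [← lintegral_const_mul' _ _ (by norm_num)]
        apply lintegral_mono
        intro z
        have h6 := R6 k j Nm w z hwm
        calc ∑ n ∈ Finset.Ico j Nm, ENNReal.ofReal (2 * τ j) *
              (‖x j z‖ₑ ^ 2 * ∫⁻ s, w (z.1 + (2 : ℝ) ^ k * s, z.2) ∂(rho τ m₀ n))
            = ENNReal.ofReal (2 * τ j) * (‖x j z‖ₑ ^ 2 *
              ∑ n ∈ Finset.Ico j Nm, ∫⁻ s, w (z.1 + (2 : ℝ) ^ k * s, z.2) ∂(rho τ m₀ n)) := by
              rw [Finset.mul_sum, Finset.mul_sum]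
          _ ≤ ENNReal.ofReal (2 * τ j) * (‖x j z‖ₑ ^ 2 * (ENNReal.ofReal (4 * τ j) * M1 (M1 w) z)) := by
              gcongr
          _ = 8 * ((ENNReal.ofReal (τ j ^ 2) * ‖x j z‖ₑ ^ 2) * M1 (M1 w) z) := by
              have h7 : ENNReal.ofReal (2 * τ j) * ENNReal.ofReal (4 * τ j) = 8 * ENNReal.ofReal (τ j ^ 2) := by
                have hp := (hpos j).le
                rw [← ENNReal.ofReal_mul (by positivity)]
                have : (8 : ℝ≥0∞) = ENNReal.ofReal 8 := by simp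
                rw [this, ← ENNReal.ofReal_mul (by norm_num)]
                congr 1; ring
              calc ENNReal.ofReal (2 * τ j) * (‖x j z‖ₑ ^ 2 * (ENNReal.ofReal (4 * τ j) * M1 (M1 w) z))
                  = (ENNReal.ofReal (2 * τ j) * ENNReal.ofReal (4 * τ j)) * (‖x j z‖ₑ ^ 2 * M1 (M1 w) z) := by
                    ring
                _ = _ := by rw [h7]; ring
      · intro n _
        have := hfin n
        have m2 : Measurable (fun q : (ℝ × ℝ) × ℝ => w (q.1.1 + (2 : ℝ) ^ k * q.2, q.1.2)) := by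
          have h1 : Measurable (fun q : (ℝ × ℝ) × ℝ => (q.1.1 + (2 : ℝ) ^ k * q.2, q.1.2)) := by fun_prop
          exact hwm.comp h1
        exact ((hxm j).mul m2.lintegral_prod_right').const_mul _
    refine (Finset.sum_le_sum e3).trans (le_of_eq ?_)
    rw [← Finset.mul_sum, ← lintegral_finset_sum]
    · congr 1
      apply lintegral_congr; intro z
      rw [hG, Finset.sum_mul]
    · intro j _
      exact ((hxm j).const_mul _).mul (hM (M1 w) (hM w hwm).1).1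
  have holder : ∫⁻ z, G z * M1 (M1 w) z ≤ (∫⁻ z, G z ^ r) ^ (1 / r) *
      ((ENNReal.ofReal C * ENNReal.ofReal C) * A) ^ (1 / r') := by
    have hm1 := (hM w hwm).1
    have hm2 := (hM (M1 w) hm1).1
    refine (ENNReal.lintegral_mul_le_Lp_mul_Lq volume hrr hGm.aemeasurable hm2.aemeasurable).trans ?_
    gcongr
    calc ∫⁻ z, M1 (M1 w) z ^ r' ≤ ENNReal.ofReal C * ∫⁻ z, M1 w z ^ r' := (hM (M1 w) hm1).2.2.1
      _ ≤ ENNReal.ofReal C * (ENNReal.ofReal C * ∫⁻ z, w z ^ r') := by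
          gcongr
          exact (hM w hwm).2.2.1
      _ = ENNReal.ofReal C * ENNReal.ofReal C * A := by
          rw [hA, hw, mul_assoc]
          congr 2
          apply lintegral_congr; intro z
          rw [← ENNReal.rpow_mul]
          congr 1
          exact hrr.sub_one_mul_conj
  have fin : A ≤ D * (∫⁻ z, G z ^ r) ^ (1 / r) * A ^ (1 / r') := by
    refine main.trans ((mul_le_mul_right holder _).trans (le_of_eq ?_))
    rw [hD, ENNReal.mul_rpow_of_nonneg _ _ (by positivity)]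
    ring
  have res := cancel hrr hAt fin
  have goal1 : ∫⁻ z, (∑ j ∈ Finset.range Nm,
        ‖∑ n ∈ Finset.Ico j Nm, Rh (rho τ m₀ n) k (x j) z‖ₑ ^ 2) ^ (p / 2) = A := by
    rw [hA, hF, hb, hr]
  have goal2 : ∫⁻ z, (∑ j ∈ Finset.range Nm,
        ENNReal.ofReal (τ j ^ 2) * ‖x j z‖ₑ ^ 2) ^ (p / 2) = ∫⁻ z, G z ^ r := by
    rw [hG, hr]
  rw [goal1, goal2]
  refine res.trans ?_
  gcongr
  have hDr : D ^ r ≠ ∞ := ENNReal.rpow_ne_top_of_nonneg hr0.le hDt
  rw [ENNReal.ofReal_add ENNReal.toReal_nonneg zero_le_one, ENNReal.ofReal_toReal hDr]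
  exact le_self_add

end Pool.Agent.Helper93.LM2
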